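import Pool.Agent.Lib.MP_5a39b1_nt.Clz.AsmF
import Pool.Agent.Lib.MP_5a39b1_nt.Clz.AsmD

/-!
# The inverse iterates of the `3x+1` map: the natural density exists and is positive

For every integer `a` not divisible by `3` the set of the integers whose forward orbit under the
`3x+1` map contains `a` has a natural density, and this density is positive.

Proof.  Backward words in pairs of steps; polynomial Fourier decay of the 3-adic Syracuse random
variables (`FD`), `L¹` mixing at fine scales (`HFsum`); transport of windows, renewal relation and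
slow variation give convergence of the window masses, irrationality of `log 4 / log 3` gives the
natural density (`DensTree`).  Positivity: frozen statement S17055 (`Fin`).
-/

set_option autoImplicit false

namespace Pool.Agent.Results.MP_5a39b1_nt.PositiveDensity

open Filter Topology

/-- For every integer `a` not divisible by `3` the limit of `π_a(N)/N` as `N → ∞` exists and is
positive, where `π_a(N)` is the number of the integers in `[-N, N]` whose forward orbit under the
`3x+1` map contains `a`. -/
theorem result : ∀ a : ℤ, ¬ ((3 : ℤ) ∣ a) → ∃ d : ℝ, 0 < d ∧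
    Tendsto (fun N : ℕ =>
      (({n : ℤ | |n| ≤ (N : ℤ) ∧
          ∃ k : ℕ, (fun m : ℤ => if m % 2 = 0 then m / 2 else (3 * m + 1) / 2)^[k] n = a}.ncard
        : ℕ) : ℝ) / (N : ℝ)) atTop (𝓝 d) := by
  intro a ha
  have ha0 : a ≠ 0 := by rintro rfl; simp at ha
  obtain ⟨⟨d, _, hd⟩, _⟩ := Pool.Agent.Clz.Asm.densTree a ha0
  refine ⟨d, ?_, hd⟩
  obtain ⟨c, hc, N₀, h⟩ := Pool.Agent.Clz.Asm.fin a ha
  refine lt_of_lt_of_le hc (ge_of_tendsto hd ?_)
  filter_upwards [eventually_ge_atTop (max N₀ 1)] with N hN
  have hN1 : (0 : ℝ) < (N : ℝ) := by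
    have : 1 ≤ N := (le_max_right _ _).trans hN
    exact_mod_cast this
  rw [le_div_iff₀ hN1]
  exact (h N ((le_max_left _ _).trans hN)).le

end Pool.Agent.Results.MP_5a39b1_nt.PositiveDensity
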